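import Pool.Agent.Lib.MP_edb5be_nt.EX.Iface2

/-!
Project EX (MP_edb5be_nt), module WORDS: numerators of the words.
-/

set_option autoImplicit false

namespace Pool.Agent.Lib.MP_edb5be_nt.EX.H22

open Finset Pool.Agent.Lib.MP_edb5be_nt.EX

theorem mem_wds (A h : ℕ) (u : List ℕ) :
    u ∈ wds A h ↔ u.length = h ∧ ∀ a ∈ u, 1 ≤ a ∧ a ≤ A := by
  induction h generalizing u with
  | zero =>
    simp only [wds, mem_singleton]
    constructor
    · rintro rfl
      simp
    · rintro ⟨h1, -⟩
      exact List.length_eq_zero_iff.1 h1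
  | succ h ih =>
    simp only [wds, mem_biUnion, mem_Icc, mem_image]
    constructor
    · rintro ⟨a, ha, v, hv, rfl⟩
      rw [ih] at hv
      refine ⟨by simp [hv.1], ?_⟩
      intro b hb
      rcases List.mem_cons.1 hb with rfl | hb
      · exact ha
      · exact hv.2 b hb
    · rintro ⟨h1, h2⟩
      cases u with
      | nil => simp at h1
      | cons a v =>
        refine ⟨a, h2 a (by simp), v, ?_, rfl⟩
        rw [ih]
        refine ⟨by simpa using h1, fun b hb => h2 b (by simp [hb])⟩

theorem cc_append (u u' : List ℕ) :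
    cc (u ++ u') = 2 ^ u'.sum * cc u + 3 ^ u.length * cc u' := by
  induction u with
  | nil => simp [cc]
  | cons a u ih =>
    simp only [List.cons_append, cc, List.sum_append, List.length_cons, ih]
    ring

theorem cc_le (u : List ℕ) (hu : ∀ a ∈ u, 1 ≤ a) :
    cc u * 2 ^ u.length + 2 ^ u.sum * 2 ^ u.length ≤ 2 ^ u.sum * 3 ^ u.length := by
  induction u with
  | nil => simp [cc]
  | cons a u ih =>
    have h1 := ih fun b hb => hu b (by simp [hb])
    have ha : 1 ≤ a := hu a (by simp)
    obtain ⟨b, rfl⟩ := Nat.exists_eq_add_of_le ha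
    simp only [cc, List.length_cons, List.sum_cons]
    have h2 : 2 ^ u.length ≤ 3 ^ u.length := Nat.pow_le_pow_left (by norm_num) _
    have h3 : 1 ≤ 2 ^ b := Nat.one_le_two_pow
    set X := 2 ^ u.sum with hX
    set Y := 2 ^ u.length with hY
    set Z := 3 ^ u.length with hZ
    set W := 2 ^ b with hW
    have e1 : 2 ^ (1 + b + u.sum) = 2 * W * X := by
      rw [pow_add, pow_add, pow_one]
    have e2 : 2 ^ (u.length + 1) = 2 * Y := by rw [pow_succ]; ring
    have e3 : 3 ^ (u.length + 1) = 3 * Z := by rw [pow_succ]; ring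
    rw [e1, e2, e3]
    have h4 : 2 * Y ≤ 3 * Z := by omega
    obtain ⟨d, hd⟩ := Nat.exists_eq_add_of_le h4
    rw [hd]
    have h5 : X * d ≤ W * (X * d) := Nat.le_mul_of_pos_left _ h3
    have h6 : (X + 3 * cc u) * (2 * Y) = 2 * (X * Y) + 6 * (cc u * Y) := by ring
    have h7 : 3 * (X * Z) = 2 * (X * Y) + X * d := by
      have : X * (3 * Z) = X * (2 * Y + d) := by rw [hd]
      nlinarith
    nlinarith

theorem cc_odd (u : List ℕ) (hu : ∀ a ∈ u, 1 ≤ a) (hne : u ≠ []) : cc u % 2 = 1 := by
  induction u with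
  | nil => exact absurd rfl hne
  | cons a u ih =>
    by_cases hn : u = []
    · subst hn
      simp [cc]
    · have h1 := ih (fun b hb => hu b (by simp [hb])) hn
      obtain ⟨b, v, rfl⟩ := List.exists_cons_of_ne_nil hn
      have hb : 1 ≤ b := hu b (by simp)
      obtain ⟨c, rfl⟩ := Nat.exists_eq_add_of_le hb
      have : 2 ^ ((1 + c) :: v).sum = 2 * 2 ^ (c + v.sum) := by
        rw [List.sum_cons, add_assoc, pow_add, pow_one]
      have e : cc (a :: (1 + c) :: v) = 2 ^ ((1 + c) :: v).sum + 3 * cc ((1 + c) :: v) := rfl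
      omega

theorem two_pow_mul_inj {a b x y : ℕ} (hx : x % 2 = 1) (hy : y % 2 = 1)
    (h : 2 ^ a * x = 2 ^ b * y) : a = b := by
  rcases lt_trichotomy a b with hab | hab | hab
  · obtain ⟨c, rfl⟩ := Nat.exists_eq_add_of_lt hab
    exfalso
    have : 2 ^ a * x = 2 ^ a * (2 * (2 ^ c * y)) := by
      rw [h]; ring
    have h2 := Nat.eq_of_mul_eq_mul_left (by positivity) this
    omega
  · exact hab
  · obtain ⟨c, rfl⟩ := Nat.exists_eq_add_of_lt hab
    exfalso
    have : 2 ^ b * y = 2 ^ b * (2 * (2 ^ c * x)) := by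
      rw [← h]; ring
    have h2 := Nat.eq_of_mul_eq_mul_left (by positivity) this
    omega

theorem cc_inj (n : ℕ) : ∀ u u' : List ℕ, u.length = n → u'.length = n →
    (∀ a ∈ u, 1 ≤ a) → (∀ a ∈ u', 1 ≤ a) → u.sum = u'.sum → cc u = cc u' → u = u' := by
  induction n with
  | zero =>
    intro u u' h1 h2 _ _ _ _
    rw [List.length_eq_zero_iff.1 h1, List.length_eq_zero_iff.1 h2]
  | succ n ih =>
    intro u u' h1 h2 h3 h4 h5 h6
    rcases List.eq_nil_or_concat u with rfl | ⟨v, a, rfl⟩
    · simp at h1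
    rcases List.eq_nil_or_concat u' with rfl | ⟨v', a', rfl⟩
    · simp at h2
    have l1 : v.length = n := by simpa using h1
    have l2 : v'.length = n := by simpa using h2
    have s1 : v.sum + a = v'.sum + a' := by simpa using h5
    have c1 : 2 ^ a * cc v = 2 ^ a' * cc v' := by
      rw [List.concat_eq_append, List.concat_eq_append, cc_append, cc_append, l1, l2] at h6
      simp only [cc, List.sum_cons, List.sum_nil, add_zero, pow_zero, mul_zero] at h6
      exact Nat.add_right_cancel h6
    have hv : ∀ b ∈ v, 1 ≤ b := fun b hb => h3 b (by simp [hb])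
    have hv' : ∀ b ∈ v', 1 ≤ b := fun b hb => h4 b (by simp [hb])
    by_cases hn : n = 0
    · subst hn
      have e1 := List.length_eq_zero_iff.1 l1
      have e2 := List.length_eq_zero_iff.1 l2
      subst e1 e2
      have : a = a' := by simpa using s1
      rw [this]
    · have o1 : cc v % 2 = 1 := cc_odd v hv (by rintro rfl; simp at l1; omega)
      have o2 : cc v' % 2 = 1 := cc_odd v' hv' (by rintro rfl; simp at l2; omega)
      have ha : a = a' := two_pow_mul_inj o1 o2 c1
      subst ha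
      have c2 : cc v = cc v' := Nat.eq_of_mul_eq_mul_left (by positivity) c1
      rw [ih v v' l1 l2 hv hv' (by omega) c2]

theorem Tc_pow (k : ℕ) (y : ℤ) : Tc^[k] (2 ^ k * y) = y := by
  induction k with
  | zero => simp
  | succ k ih =>
    rw [Function.iterate_succ_apply]
    have : Tc (2 ^ (k + 1) * y) = 2 ^ k * y := by
      have e : (2 : ℤ) ^ (k + 1) * y = 2 * (2 ^ k * y) := by ring
      rw [e, Tc, if_pos (by omega)]
      omega
    rw [this, ih]

theorem Tc_iter (u : List ℕ) (hu : ∀ a ∈ u, 1 ≤ a) : ∀ y z : ℤ,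
    3 ^ u.length * z + cc u = 2 ^ u.sum * y → Tc^[u.sum] z = y := by
  induction u with
  | nil =>
    intro y z h
    simpa [cc] using h
  | cons a u ih =>
    intro y z h
    have ha : 1 ≤ a := hu a (by simp)
    obtain ⟨b, rfl⟩ := Nat.exists_eq_add_of_le ha
    have h1 : (2 : ℤ) ^ u.sum * (2 ^ (1 + b) * y - 1) = 3 * (3 ^ u.length * z + cc u) := by
      simp only [cc, List.length_cons, List.sum_cons] at h
      push_cast at h
      have e : (2 : ℤ) ^ (1 + b + u.sum) = 2 ^ u.sum * 2 ^ (1 + b) := by rw [pow_add]; ring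
      rw [e, pow_succ] at h
      linear_combination -h
    have h2 : (3 : ℤ) ∣ 2 ^ (1 + b) * y - 1 := by
      have h3 : (3 : ℤ) ∣ 2 ^ u.sum * (2 ^ (1 + b) * y - 1) := ⟨_, h1⟩
      have hc : IsCoprime (3 : ℤ) (2 ^ u.sum) := by
        apply IsCoprime.pow_right
        exact Int.isCoprime_iff_gcd_eq_one.2 (by decide)
      exact hc.dvd_of_dvd_mul_left h3
    obtain ⟨z1, hz1⟩ := h2
    have h3 : 3 ^ u.length * z + cc u = 2 ^ u.sum * z1 := by
      rw [hz1] at h1
      have : (3 : ℤ) * (3 ^ u.length * z + cc u) = 3 * (2 ^ u.sum * z1) := by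
        rw [← h1]; ring
      exact mul_left_cancel₀ (by norm_num) this
    have h4 := ih (fun b hb => hu b (by simp [hb])) z1 z h3
    rw [List.sum_cons, Function.iterate_add_apply, h4, add_comm 1 b, Function.iterate_succ_apply]
    have e2 : (2 : ℤ) ^ (1 + b) * y = 2 * (2 ^ b * y) := by rw [pow_add]; ring
    have h5 : Tc z1 = 2 ^ b * y := by
      rw [e2] at hz1
      rw [Tc, if_neg (by omega)]
      omega
    rw [h5, Tc_pow]

/-- WORDS. -/
theorem words : WordsStatement := by
  refine ⟨mem_wds, cc_append, ?_, ?_, Tc_iter⟩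
  · intro u hu
    have h1 := cc_le u hu
    rw [Nat.mul_sub]
    omega
  · intro u u' h1 h2 h3 h4 h5
    exact cc_inj u'.length u u' h3 rfl h1 h2 h4 h5

end Pool.Agent.Lib.MP_edb5be_nt.EX.H22
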